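import Pool.Agent.X171.IP.Fin
import Pool.Agent.X171.IP.Auto

/-!
# MP_dca501_an: isomorphically versus isometrically projective Banach lattices

There is an isomorphically projective Banach lattice which is not isomorphic to any isometrically
projective Banach lattice.
-/

namespace Pool.Agent.Results.MP_dca501_an.NotIsomorphic

open Pool.Agent.X171.BL (BanachLattice IsLatticeHom)
open Pool.Agent.X171.SP (ClosedIdeal OnePlusProjective)
open Pool.Agent.X171.IP

universe u v

/-- **Q1, answered negatively.** There is a Banach lattice `P` which is isomorphically projective,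
but which is not isomorphic (by a linear bijection which preserves suprema) to any Banach
lattice `Q` which is isometrically projective. -/
theorem result : ∃ (P : Type) (_ : NormedAddCommGroup P) (_ : Lattice P) (_ : NormedSpace ℝ P)
    (_ : BanachLattice P), IsoProjective.{0, v} P ∧
      ∀ (Q : Type u) [NormedAddCommGroup Q] [Lattice Q] [NormedSpace ℝ Q] [BanachLattice Q],
        OnePlusProjective.{u, u} Q →
          ¬ ∃ Φ : P ≃ₗ[ℝ] Q, ∀ x y, Φ (x ⊔ y) = Φ x ⊔ Φ y := by
  refine ⟨PP, inferInstance, inferInstance, inferInstance, inferInstance, isoProjective_PP, ?_⟩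
  rintro Q _ _ _ _ hQ ⟨Φ, hΦ⟩
  have hΨ : ∀ x y, Φ.symm (x ⊔ y) = Φ.symm x ⊔ Φ.symm y := fun x y => by
    apply Φ.injective
    rw [hΦ, Φ.apply_symm_apply, Φ.apply_symm_apply, Φ.apply_symm_apply]
  obtain ⟨S, hS, hS'⟩ := exists_clm (Φ : PP →ₗ[ℝ] Q) hΦ
  obtain ⟨R, hR, hR'⟩ := exists_clm (Φ.symm : Q →ₗ[ℝ] PP) hΨ
  refine no_iso hQ S R hS hR (fun x => ?_) fun y => ?_
  · rw [hR', hS']
    exact Φ.symm_apply_apply x
  · rw [hS', hR']
    exact Φ.apply_symm_apply y

end Pool.Agent.Results.MP_dca501_an.NotIsomorphic
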